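import Mathlib
import Pool.Agent.Lib.MP_c351d3_co.CliqueCover

namespace Pool.Agent.Results.MP_c351d3_co.CliqueCover

open Pool.Agent.MP_c351d3_co

/-- Let `G` be a spanning subgraph of `G'` such that `γ(G')` and `γ(G' - u)` are at least `γ(G)`
and the vertices other than `u` are covered by `γ(G)` cliques of `G'`. Then `{u}` is attachable
in `G`. -/
theorem result (V : Type) [Fintype V] (G G' : SimpleGraph V) (u : V) (hGG : G ≤ G')
    (h1 : gamma G ≤ gamma G') (h2 : gamma G ≤ gamma (del G' u))
    (C : Fin (gamma G) → Set V) (hC : ∀ i, G'.IsClique (C i)) (hcov : ∀ v, v ≠ u → ∃ i, v ∈ C i) :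
    Attachable G {u} :=
  attachable_of_cliques G G' u hGG h1 h2 C hC hcov

end Pool.Agent.Results.MP_c351d3_co.CliqueCover
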