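import Mathlib
import Pool.Agent.Lib.MP_c351d3_co.Forest

namespace Pool.Agent.Results.MP_c351d3_co.Forests

open Pool.Agent.MP_c351d3_co

/-- In a finite forest `G`, every vertex `u` with `γ(G - u) ≥ γ(G)` is attachable. -/
theorem result (V : Type) [Fintype V] (G : SimpleGraph V) (hG : G.IsAcyclic) (u : V)
    (hu : gamma G ≤ gamma (del G u)) : Attachable G {u} :=
  attachable_forest G hG u hu

end Pool.Agent.Results.MP_c351d3_co.Forests
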