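import Mathlib
import Pool.Agent.Lib.MP_c351d3_co.Leaf

namespace Pool.Agent.Results.MP_c351d3_co.VizingEquivalence

open Pool.Agent.MP_c351d3_co

/-- The following are equivalent: Vizing's conjecture; a positive answer to Q1; the statement of
Q1 without the hypothesis that `G` satisfies Vizing's conjecture; a positive answer to Q1 for
vertices `u` of degree one. -/
theorem result :
    List.TFAE [
      ∀ (V : Type) [Fintype V] (G : SimpleGraph V), SatisfiesVizing G,
      ∀ (V : Type) [Fintype V] (G : SimpleGraph V) (u : V), SatisfiesVizing G →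
        gamma G ≤ gamma (del G u) → Attachable G {u},
      ∀ (V : Type) [Fintype V] (G : SimpleGraph V) (u : V),
        gamma G ≤ gamma (del G u) → Attachable G {u},
      ∀ (V : Type) [Fintype V] (G : SimpleGraph V) (u : V), SatisfiesVizing G →
        gamma G ≤ gamma (del G u) → (∃ a : V, ∀ v : V, G.Adj u v ↔ v = a) → Attachable G {u}] := by
  tfae_have 1 → 3 := by
    intro h V _ G u hu
    refine ⟨⟨u, rfl⟩, ?_⟩
    intro W _ H D hD
    exact le_card_of_partner G u hu H (h W H) D hD
  tfae_have 3 → 2 := by
    intro h V _ G u _ hu
    exact h V G u hu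
  tfae_have 2 → 4 := by
    intro h V _ G u hG hu _
    exact h V G u hG hu
  tfae_have 4 → 1 := by
    intro h V _ G
    exact vizing_of_Q1 h V G
  tfae_finish

end Pool.Agent.Results.MP_c351d3_co.VizingEquivalence
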