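import Mathlib
import Pool.Agent.Lib.MP_c351d3_co.Star

namespace Pool.Agent.Results.MP_c351d3_co.VizingPartner

open Pool.Agent.MP_c351d3_co

/-- Let `H` be a finite graph satisfying Vizing's conjecture. Then for every finite graph `G`
(satisfying Vizing's conjecture or not) and every vertex `u` with `γ(G - u) ≥ γ(G)`, every set `D`
of vertices of `G □ H` dominating `V(G - u) × V(H)` has at least `γ(G) γ(H)` elements. -/
theorem result (W : Type) [Fintype W] (H : SimpleGraph W) (hH : SatisfiesVizing H)
    (V : Type) [Fintype V] (G : SimpleGraph V) (u : V) (hu : gamma G ≤ gamma (del G u))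
    (D : Finset (V × W)) (hD : Dominates (G.boxProd H) D {x | x.1 ≠ u}) :
    gamma G * gamma H ≤ D.card :=
  le_card_of_partner G u hu H hH D hD

end Pool.Agent.Results.MP_c351d3_co.VizingPartner
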